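import Pool.Agent.H54.TW.Parts
import Pool.Agent.Results.MP_eba1ef_gt.TwelveInSpace

/-!
# MP_b9beb9_co: twelve parts of smaller width suffice in space

Every convex body `F` of `ℝ³` is the union of at most 12 parts of smaller width in every direction:
`b'(F) ≤ 12`. Proof: `F` is covered by 12 translates of its interior
(`MP_eba1ef_gt.TwelveInSpace`); by compactness the parts can be chosen deep inside the translates
(`Pool/Agent/H54/TW/Parts.lean`), and such a part has a smaller width in every direction.
-/

set_option autoImplicit false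

namespace Pool.Agent.Results.MP_b9beb9_co.TwelvePartsInSpace

open Pool.Agent.H54.TW

/-- Every convex body `F` of `ℝ³` is the union of at most 12 nonempty parts of smaller width than
`F` in every direction `u`. -/
theorem result (F : Set (EuclideanSpace ℝ (Fin 3))) (hF : Convex ℝ F) (hFc : IsCompact F)
    (hFi : (interior F).Nonempty) :
    ∃ (k : ℕ) (A : Fin k → Set (EuclideanSpace ℝ (Fin 3))), k ≤ 12 ∧ (⋃ i, A i) = F ∧
      ∀ i, (A i).Nonempty ∧ ∀ u : EuclideanSpace ℝ (Fin 3), ‖u‖ = 1 → wid (A i) u < wid F u := by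
  obtain ⟨T, hT, hcov⟩ := Pool.Agent.Results.MP_eba1ef_gt.TwelveInSpace.result F hF hFc hFi
  obtain ⟨k, A, δ, hk, hδ, hA, h⟩ := parts hFc T hcov
  refine ⟨k, A, hk.trans hT, hA, fun i => ⟨(h i).1, fun u hu => ?_⟩⟩
  obtain ⟨t, ht⟩ := (h i).2
  exact wid_parts hFc (h i).1 hδ ht hu

end Pool.Agent.Results.MP_b9beb9_co.TwelvePartsInSpace
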